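import Pool.Agent.KS6_77.AreaB.Final

set_option autoImplicit false

open scoped Topology ContDiff Manifold commutatorElement
open Pool.Agent.Results.MP_ac1d8d_gt.PerfectSurface Pool.Agent.Y136.AreaBdd

namespace Pool.Agent.Results.MP_ac1d8d_gt.StronglyBoundedGroup

open Pool.Agent.KS6_77.AreaB (IsWord)

/-- There is a surface `S` of infinite type with an area form `a` such that for the group
`G = DiffArea a` of all area preserving diffeomorphisms: every element is a product of two
commutators (so `G` is perfect), and of four conjugates of `t`, `t⁻¹` for one element `t ≠ 1`;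
every homogeneous quasimorphism is zero; and `G` is strongly bounded: every length function on `G`
is bounded, conjugation invariant or not. So every action of `G` by isometries on a metric space has
bounded orbits, every generating set of `G` has finite width, and `G` is not the union of an
increasing sequence of proper subgroups. -/
theorem result : ∃ (S : Type) (_ : TopologicalSpace S) (_ : ChartedSpace Plane S)
    (_ : IsManifold 𝓘(ℝ, Plane) ∞ S) (_ : T2Space S) (_ : SecondCountableTopology S)
    (_ : ConnectedSpace S) (a : AreaForm S),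
    InfiniteType S ∧ Group.IsPerfect (DiffArea a) ∧
      (∀ g : DiffArea a, ∃ b c d e : DiffArea a, g = ⁅b, c⁆ * ⁅d, e⁆) ∧
      (∃ t : DiffArea a, t ≠ 1 ∧ ∀ g, FourConj t g) ∧
      (∀ φ : DiffArea a → ℝ, IsHomogQuasi φ → ∀ g, φ g = 0) ∧
      (∀ ν : DiffArea a → ℝ, (∀ g, ν g⁻¹ = ν g) → (∀ g h, ν (g * h) ≤ ν g + ν h) →
        ∃ C : ℝ, ∀ g, ν g ≤ C) ∧
      (∀ (X : Type) [PseudoMetricSpace X] [MulAction (DiffArea a) X]
        [IsIsometricSMul (DiffArea a) X] (x : X),
        Bornology.IsBounded (MulAction.orbit (DiffArea a) x)) ∧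
      (∀ E : Set (DiffArea a), Subgroup.closure E = ⊤ →
        ∃ n : ℕ, ∀ g, ∃ m ≤ n, IsWord E m g) ∧
      (∀ K : ℕ → Subgroup (DiffArea a), Monotone K → (∀ g, ∃ i, g ∈ K i) → ∃ i, K i = ⊤) := by
  obtain ⟨t, h1, h2⟩ := exists_t
  have hS := Pool.Agent.KS6_77.AreaB.strong
  refine ⟨U, inferInstance, inferInstance, inferInstance, inferInstance, inferInstance,
    inferInstance, area, infiniteType_U, ⟨?_⟩, two_commutators, ⟨t, h1, h2⟩,
    fun φ hφ g => quasi_eq_zero h2 hφ g, hS,
    fun X _ _ _ x => Pool.Agent.KS6_77.AreaB.orbits_bdd hS X x,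
    fun E hE => Pool.Agent.KS6_77.AreaB.width hS E hE,
    fun K hK hU => Pool.Agent.KS6_77.AreaB.chain hS K hK hU⟩
  rw [eq_top_iff]
  intro g _
  obtain ⟨b, c, d, e, rfl⟩ := two_commutators g
  exact Subgroup.mul_mem _ (Subgroup.commutator_mem_commutator (Subgroup.mem_top _)
    (Subgroup.mem_top _)) (Subgroup.commutator_mem_commutator (Subgroup.mem_top _)
    (Subgroup.mem_top _))

end Pool.Agent.Results.MP_ac1d8d_gt.StronglyBoundedGroup
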